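import Pool.Agent.RCM.StmtsA
import Pool.Agent.Helper35_RCM.Base

/-! # RCA: the rank of `L` over `T ∪ P` (helper38) -/

set_option autoImplicit false

namespace Pool.Agent.RCM.H38

open Set

universe u

theorem lcr (hR : RrbStmt.{u}) (hN : RnbStmt.{u}) (hO : OpbStmt.{u}) (hC : ClfStmt.{u}) :
    LcrStmt.{u} := by
  intro E K _ _ M N κ s t P X T k m hCol hMx hSt
  refine ⟨fun F c => ⟨?_, ?_⟩, ?_⟩
  · set R : Set E := {y ∈ T | κ y ∈ F} with hRdef
    set C : Set E := κ ⁻¹' {c} with hCdef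
    have h1 : C ⊆ Lc N κ F T c ∪ (C ∩ N.closure R) := by
      intro x hx
      by_cases h : x ∈ N.closure R
      · exact Or.inr ⟨hx, h⟩
      · exact Or.inl ⟨hx, h⟩
    have h2 : (C ∩ N.closure R).ncard ≤ R.ncard := by
      have i1 : N.Indep (C ∩ N.closure R) := (hCol.indN c).subset inter_subset_left
      have i2 := i1.encard_le_eRk_of_subset (inter_subset_right : C ∩ N.closure R ⊆ N.closure R)
      rw [Matroid.eRk_closure_eq] at i2
      have i3 := i2.trans (N.eRk_le_encard R)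
      rw [← (Set.toFinite (C ∩ N.closure R)).cast_ncard_eq,
        ← (Set.toFinite R).cast_ncard_eq] at i3
      exact_mod_cast i3
    have h3 : s ≤ C.ncard := hCol.card c
    have h4 := Set.ncard_le_ncard h1 (Set.toFinite _)
    have h5 := Set.ncard_union_le (Lc N κ F T c) (C ∩ N.closure R)
    omega
  · refine ((hR E M (Lc N κ F T c) ∅).2.2.2.1) ?_
    exact (hCol.indM c).subset fun x hx => hx.1
  · intro T' P' c hOp hc
    obtain ⟨hcX, T'', hRn, hcT⟩ := hc
    obtain ⟨hPP, -, hRn1⟩ := (hO E K M N κ X).2.2.1 k T P T' P' hOp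
    obtain ⟨r1, r2, r3, r4, r5⟩ := hN E K M N κ X
    have hRn2 := r3 P P' m T' T'' hPP hRn
    have hRn3 := r2 P k m T T' T'' hRn1 hRn2
    have hRc := r4 P (k + m) T T'' hRn3
    have hSt2 := (H35.rch' E K M N κ s t P X T T'' hCol hMx hSt hRc).1
    have hcard := r5 P m T' T'' hRn2
    set L := Lc N κ (Gn M N κ P X (k + m + 1) T) T c with hL
    have hLsub : L ⊆ M.closure (T'' ∪ P) := by
      intro x hx
      by_contra hcon
      obtain ⟨hxc, hxN⟩ := hx
      refine hxN (hC E K M N κ s t P X T (k + m) hCol hMx hSt T'' x hRn3 ?_ ?_ hcon)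
      · rw [hxc]; exact hcX
      · rw [hxc]; exact hcT
    have hsub : L ∪ T' ∪ P ⊆ (L ∪ (T'' ∪ P)) ∪ (T' \ T'') := by
      rintro x ((h | h) | h)
      · exact Or.inl (Or.inl h)
      · by_cases h'' : x ∈ T''
        · exact Or.inl (Or.inr (Or.inl h''))
        · exact Or.inr ⟨h, h''⟩
      · exact Or.inl (Or.inr (Or.inr h))
    have a1 := (hR E M (L ∪ T' ∪ P) ((L ∪ (T'' ∪ P)) ∪ (T' \ T''))).1 hsub
    have a2 := (hR E M (L ∪ (T'' ∪ P)) (T' \ T'')).2.2.2.2.1
    have a3 := (hR E M L (T'' ∪ P)).2.2.2.2.2 hLsub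
    have a4 := (hR E M (T'' ∪ P) ∅).2.2.1
    have a5 := Set.ncard_union_le T'' P
    have a6 := hSt2.card
    omega

end Pool.Agent.RCM.H38
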